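import Pool.Agent.P8H33.QC.Stm

/-! Project QC (helper33), package PEN, by helper86. The hypothesis is only needed for `m₁`. -/

set_option autoImplicit false

open Matrix

namespace Pool.Agent.P8H86.QC

open Pool.Agent.P8H33.QC

theorem pen_core (m₁ m₂ m₃ : Matrix (Fin 3) (Fin 3) ℚ) (h : m₁.det = 0) :
    ∃ w v : Fin 3 → ℚ, w ≠ 0 ∧ v ≠ 0 ∧ w ⬝ᵥ (m₁ *ᵥ v) = 0 ∧ w ⬝ᵥ (m₂ *ᵥ v) = 0 ∧
      w ⬝ᵥ (m₃ *ᵥ v) = 0 := by
  obtain ⟨v, hv, hv0⟩ := Matrix.exists_mulVec_eq_zero_iff.2 h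
  let M : Matrix (Fin 3) (Fin 3) ℚ := Matrix.of ![m₂ *ᵥ v, m₃ *ᵥ v, 0]
  have hM : M.det = 0 := Matrix.det_eq_zero_of_row_eq_zero 2 (fun j => rfl)
  obtain ⟨w, hw, hw0⟩ := Matrix.exists_mulVec_eq_zero_iff.2 hM
  refine ⟨w, v, hw, hv, ?_, ?_, ?_⟩
  · rw [hv0, dotProduct_zero]
  · rw [dotProduct_comm]
    exact congrFun hw0 0
  · rw [dotProduct_comm]
    exact congrFun hw0 1

theorem pen : S_PEN := by
  intro m₁ m₂ m₃ h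
  refine pen_core m₁ m₂ m₃ ?_
  have := h 1 0
  rwa [one_smul, zero_smul, add_zero] at this

end Pool.Agent.P8H86.QC


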